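import Mathlib

/-!
# Pairing vectors of the same class

Helper file (helper281). The indices in a finite set `I` are divided into classes. They are grouped
into pairs of indices of the same class and a set `J` of single indices of different classes.
-/

set_option autoImplicit false

namespace Pool.Agent.H281K

open Finset

/-- `x` is a sign. -/
def IsSgn (x : ℝ) : Prop := x = 1 ∨ x = -1

theorem IsSgn.neg {x : ℝ} (h : IsSgn x) : IsSgn (-x) := by
  rcases h with h | h
  · exact Or.inr (by rw [h])
  · exact Or.inl (by rw [h]; norm_num)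

theorem IsSgn.mul {x y : ℝ} (h : IsSgn x) (k : IsSgn y) : IsSgn (x * y) := by
  rcases h with h | h
  · rw [h, one_mul]; exact k
  · rw [h, neg_one_mul]; exact k.neg

theorem IsSgn.sq {x : ℝ} (h : IsSgn x) : x * x = 1 := by
  rcases h with h | h <;> rw [h] <;> norm_num

theorem pairing_rel {ι : Type} [DecidableEq ι] (rel : ι → ι → Prop) (τ : ι → ι → ℝ)
    (hτ : ∀ i j, IsSgn (τ i j)) :
    ∀ (N : ℕ) (I : Finset ι), I.card ≤ N → ∃ (J : Finset ι) (m : ℕ) (f g : Fin m → ι),
      J ⊆ I ∧ (∀ i ∈ J, ∀ j ∈ J, rel i j → i = j) ∧ 2 * m ≤ I.card ∧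
      (∀ a, f a ∈ I ∧ g a ∈ I ∧ rel (f a) (g a)) ∧
      ∀ (η : ι → ℝ) (δ : Fin m → ℝ), (∀ i, IsSgn (η i)) → (∀ a, IsSgn (δ a)) →
        ∃ ε : ι → ℝ, (∀ i, IsSgn (ε i)) ∧ ∀ G : ι → ℝ,
          ∑ i ∈ I, ε i * G i =
            ∑ i ∈ J, η i * G i + ∑ a, δ a * (G (f a) - τ (f a) (g a) * G (g a)) := by
  intro N
  induction N with
  | zero =>
    intro I hI
    have h0 : I = ∅ := Finset.card_eq_zero.1 (Nat.le_zero.1 hI)
    subst h0
    refine ⟨∅, 0, Fin.elim0, Fin.elim0, subset_rfl, by simp, by simp, fun a => a.elim0, ?_⟩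
    intro η δ hη _
    exact ⟨η, hη, fun G => by simp⟩
  | succ N ih =>
    intro I hI
    by_cases hinj : ∀ i ∈ I, ∀ j ∈ I, rel i j → i = j
    · refine ⟨I, 0, Fin.elim0, Fin.elim0, subset_rfl, hinj, by simp, fun a => a.elim0, ?_⟩
      intro η δ hη _
      exact ⟨η, hη, fun G => by simp⟩
    · push Not at hinj
      obtain ⟨i, hi', j, hj, hc, hij⟩ := hinj
      have hj' : j ∈ I.erase i := Finset.mem_erase.2 ⟨Ne.symm hij, hj⟩
      have hcard : ((I.erase i).erase j).card + 2 = I.card := by
        have h1 := Finset.card_erase_add_one hi'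
        have h2 := Finset.card_erase_add_one hj'
        omega
      obtain ⟨J, m, f, g, hJ, hinjJ, hm, hfg, H⟩ := ih ((I.erase i).erase j) (by omega)
      have hsub : (I.erase i).erase j ⊆ I := (Finset.erase_subset _ _).trans (Finset.erase_subset _ _)
      refine ⟨J, m + 1, Fin.cons i f, Fin.cons j g, hJ.trans hsub, hinjJ, by omega, ?_, ?_⟩
      · intro a
        refine Fin.cases ?_ (fun b => ?_) a
        · simp only [Fin.cons_zero]
          exact ⟨hi', hj, hc⟩
        · simp only [Fin.cons_succ]
          exact ⟨hsub (hfg b).1, hsub (hfg b).2.1, (hfg b).2.2⟩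
      · intro η δ hη hδ
        obtain ⟨ε, hε, hF⟩ := H η (fun a => δ a.succ) hη (fun a => hδ a.succ)
        refine ⟨Function.update (Function.update ε i (δ 0)) j (-(δ 0) * τ i j), ?_, ?_⟩
        · intro l
          by_cases h1 : l = j
          · subst h1; rw [Function.update_self]; exact (hδ 0).neg.mul (hτ _ _)
          · rw [Function.update_of_ne h1]
            by_cases h2 : l = i
            · subst h2; rw [Function.update_self]; exact hδ 0
            · rw [Function.update_of_ne h2]; exact hε l
        · intro G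
          rw [← Finset.add_sum_erase I _ hi', ← Finset.add_sum_erase (I.erase i) _ hj']
          rw [Function.update_self, Function.update_of_ne hij, Function.update_self]
          have h3 : ∑ l ∈ (I.erase i).erase j,
              Function.update (Function.update ε i (δ 0)) j (-(δ 0) * τ i j) l * G l =
              ∑ l ∈ (I.erase i).erase j, ε l * G l := by
            refine Finset.sum_congr rfl fun l hl => ?_
            have hl1 : l ≠ j := (Finset.mem_erase.1 hl).1
            have hl2 : l ≠ i := (Finset.mem_erase.1 (Finset.mem_erase.1 hl).2).1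
            rw [Function.update_of_ne hl1, Function.update_of_ne hl2]
          rw [h3, hF G, Fin.sum_univ_succ]
          simp only [Fin.cons_zero, Fin.cons_succ]
          ring

theorem pairing {ι γ : Type} [DecidableEq ι] (c : ι → γ) :
    ∀ (N : ℕ) (I : Finset ι), I.card ≤ N → ∃ (J : Finset ι) (m : ℕ) (f g : Fin m → ι),
      J ⊆ I ∧ Set.InjOn c J ∧ 2 * m ≤ I.card ∧
      (∀ a, f a ∈ I ∧ g a ∈ I ∧ c (f a) = c (g a)) ∧
      ∀ (η : ι → ℝ) (δ : Fin m → ℝ), (∀ i, IsSgn (η i)) → (∀ a, IsSgn (δ a)) →
        ∃ ε : ι → ℝ, (∀ i, IsSgn (ε i)) ∧ ∀ F : ι → ℝ,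
          ∑ i ∈ I, ε i * F i = ∑ i ∈ J, η i * F i + ∑ a, δ a * (F (f a) - F (g a)) := by
  intro N
  induction N with
  | zero =>
    intro I hI
    have h0 : I = ∅ := Finset.card_eq_zero.1 (Nat.le_zero.1 hI)
    subst h0
    refine ⟨∅, 0, Fin.elim0, Fin.elim0, subset_rfl, by simp, by simp, fun a => a.elim0, ?_⟩
    intro η δ hη _
    exact ⟨η, hη, fun F => by simp⟩
  | succ N ih =>
    intro I hI
    by_cases hinj : Set.InjOn c I
    · refine ⟨I, 0, Fin.elim0, Fin.elim0, subset_rfl, hinj, by simp, fun a => a.elim0, ?_⟩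
      intro η δ hη _
      exact ⟨η, hη, fun F => by simp⟩
    · unfold Set.InjOn at hinj
      push Not at hinj
      obtain ⟨i, hi, j, hj, hc, hij⟩ := hinj
      have hi' : i ∈ I := hi
      have hj' : j ∈ I.erase i := Finset.mem_erase.2 ⟨Ne.symm hij, hj⟩
      have hcard : ((I.erase i).erase j).card + 2 = I.card := by
        have h1 := Finset.card_erase_add_one hi'
        have h2 := Finset.card_erase_add_one hj'
        omega
      obtain ⟨J, m, f, g, hJ, hinjJ, hm, hfg, H⟩ := ih ((I.erase i).erase j) (by omega)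
      have hsub : (I.erase i).erase j ⊆ I := (Finset.erase_subset _ _).trans (Finset.erase_subset _ _)
      refine ⟨J, m + 1, Fin.cons i f, Fin.cons j g, hJ.trans hsub, hinjJ, by omega, ?_, ?_⟩
      · intro a
        refine Fin.cases ?_ (fun b => ?_) a
        · simp only [Fin.cons_zero]
          exact ⟨hi', hj, hc⟩
        · simp only [Fin.cons_succ]
          exact ⟨hsub (hfg b).1, hsub (hfg b).2.1, (hfg b).2.2⟩
      · intro η δ hη hδ
        obtain ⟨ε, hε, hF⟩ := H η (fun a => δ a.succ) hη (fun a => hδ a.succ)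
        refine ⟨Function.update (Function.update ε i (δ 0)) j (-(δ 0)), ?_, ?_⟩
        · intro l
          by_cases h1 : l = j
          · subst h1; rw [Function.update_self]; exact (hδ 0).neg
          · rw [Function.update_of_ne h1]
            by_cases h2 : l = i
            · subst h2; rw [Function.update_self]; exact hδ 0
            · rw [Function.update_of_ne h2]; exact hε l
        · intro F
          rw [← Finset.add_sum_erase I _ hi', ← Finset.add_sum_erase (I.erase i) _ hj']
          rw [Function.update_self, Function.update_of_ne hij, Function.update_self]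
          have h3 : ∑ l ∈ (I.erase i).erase j,
              Function.update (Function.update ε i (δ 0)) j (-(δ 0)) l * F l =
              ∑ l ∈ (I.erase i).erase j, ε l * F l := by
            refine Finset.sum_congr rfl fun l hl => ?_
            have hl1 : l ≠ j := (Finset.mem_erase.1 hl).1
            have hl2 : l ≠ i := (Finset.mem_erase.1 (Finset.mem_erase.1 hl).2).1
            rw [Function.update_of_ne hl1, Function.update_of_ne hl2]
          rw [h3, hF F, Fin.sum_univ_succ]
          simp only [Fin.cons_zero, Fin.cons_succ]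
          ring

end Pool.Agent.H281K
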