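import Mathlib
import Pool.Agent.H281K.Pair

/-!
# Chaining for the Komlós problem

Helper file (helper281). If all families of `n` vectors of the unit ball have signings of value at
most `B n`, then families with small covering numbers have signings whose value is bounded by a sum
over the scales.
-/

set_option autoImplicit false

namespace Pool.Agent.H281K

open Finset

/-- All families of `n` vectors in the unit ball have signings of value at most `B n`. -/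
def Bal (B : ℕ → ℝ) : Prop :=
  ∀ (n d : ℕ) (v : Fin n → Fin d → ℝ), (∀ i, ∑ k, v i k ^ 2 ≤ 1) →
    ∃ ε : Fin n → ℝ, (∀ i, ε i = 1 ∨ ε i = -1) ∧ ∀ k, |∑ i, ε i * v i k| ≤ B n

theorem Bal.scaled {B : ℕ → ℝ} (hB : Bal B) {m d : ℕ} (w : Fin m → Fin d → ℝ) {ρ : ℝ}
    (hρ : 0 < ρ) (hw : ∀ i, ∑ k, w i k ^ 2 ≤ ρ ^ 2) :
    ∃ ε : Fin m → ℝ, (∀ i, IsSgn (ε i)) ∧ ∀ k, |∑ i, ε i * w i k| ≤ ρ * B m := by
  obtain ⟨ε, hε, h⟩ := hB m d (fun i k => w i k / ρ) (fun i => by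
    simp_rw [div_pow]
    rw [← Finset.sum_div, div_le_one (by positivity)]
    exact hw i)
  refine ⟨ε, hε, fun k => ?_⟩
  have h1 := h k
  have h2 : ∑ i, ε i * w i k = ρ * ∑ i, ε i * (w i k / ρ) := by
    rw [Finset.mul_sum]
    refine Finset.sum_congr rfl fun i _ => ?_
    field_simp
  rw [h2, abs_mul, abs_of_pos hρ]
  exact mul_le_mul_of_nonneg_left h1 hρ.le

theorem Bal.subset {B : ℕ → ℝ} (hB : Bal B) {n d : ℕ} (v : Fin n → Fin d → ℝ)
    (hv : ∀ i, ∑ k, v i k ^ 2 ≤ 1) (I : Finset (Fin n)) :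
    ∃ ε : Fin n → ℝ, (∀ i, IsSgn (ε i)) ∧ ∀ k, |∑ i ∈ I, ε i * v i k| ≤ B I.card := by
  classical
  let e := I.equivFin
  obtain ⟨ε, hε, h⟩ := hB I.card d (fun a k => v (e.symm a) k) (fun a => hv _)
  refine ⟨fun i => if hi : i ∈ I then ε (e ⟨i, hi⟩) else 1, fun i => ?_, fun k => ?_⟩
  · by_cases hi : i ∈ I
    · simp only [hi, dite_true]; exact hε _
    · simp only [hi, dite_false]; exact Or.inl rfl
  · refine le_trans (le_of_eq ?_) (h k)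
    congr 1
    rw [← Finset.sum_coe_sort I, ← Equiv.sum_comp e.symm]
    refine Finset.sum_congr rfl fun a _ => ?_
    have h1 : ((e.symm a : I) : Fin n) ∈ I := (e.symm a).2
    simp only [h1, dite_true]
    have h2 : (⟨((e.symm a : I) : Fin n), h1⟩ : I) = e.symm a := rfl
    rw [h2, Equiv.apply_symm_apply]

/-- One step of the chaining. -/
theorem step {B : ℕ → ℝ} (hB : Bal B) (hm : Monotone B) {n d N M : ℕ} (v : Fin n → Fin d → ℝ)
    (c : Fin n → Fin N) (s : Fin n → ℝ) (hs : ∀ i, IsSgn (s i)) {ρ : ℝ} (hρ : 0 < ρ)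
    (hc : ∀ i j, c i = c j → ∑ k, (s i * v i k - s j * v j k) ^ 2 ≤ ρ ^ 2)
    (I : Finset (Fin n)) (hI : I.card ≤ M) (R : ℝ)
    (hJ : ∀ J : Finset (Fin n), J.card ≤ N →
      ∃ ε : Fin n → ℝ, (∀ i, IsSgn (ε i)) ∧ ∀ k, |∑ i ∈ J, ε i * v i k| ≤ R) :
    ∃ ε : Fin n → ℝ, (∀ i, IsSgn (ε i)) ∧ ∀ k, |∑ i ∈ I, ε i * v i k| ≤ R + ρ * B M := by
  classical
  obtain ⟨J, m, f, g, _, hinj, hm2, hfg, H⟩ := pairing c I.card I le_rfl
  have hJc : J.card ≤ N := by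
    have := Finset.card_le_card_of_injOn (s := J) (t := (Finset.univ : Finset (Fin N))) c
      (fun _ _ => Finset.mem_coe.2 (Finset.mem_univ _)) hinj
    rwa [Finset.card_univ, Fintype.card_fin] at this
  obtain ⟨η, hη, hη2⟩ := hJ J hJc
  obtain ⟨δ, hδ, hδ2⟩ := hB.scaled (fun a k => s (f a) * v (f a) k - s (g a) * v (g a) k) hρ
    (fun a => hc _ _ (hfg a).2.2)
  obtain ⟨ε, hε, hF⟩ := H (fun i => η i * s i) δ (fun i => (hη i).mul (hs i)) hδ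
  refine ⟨fun i => ε i * s i, fun i => (hε i).mul (hs i), fun k => ?_⟩
  have h1 := hF (fun i => s i * v i k)
  have h2 : ∑ i ∈ I, ε i * s i * v i k = ∑ i ∈ I, ε i * (s i * v i k) :=
    Finset.sum_congr rfl fun i _ => by ring
  have h3 : ∑ i ∈ J, η i * s i * (s i * v i k) = ∑ i ∈ J, η i * v i k :=
    Finset.sum_congr rfl fun i _ => by
      rw [mul_assoc, ← mul_assoc (s i), (hs i).sq, one_mul]
  rw [h2, h1, h3]
  refine (abs_add_le _ _).trans (add_le_add (hη2 k) ((hδ2 k).trans ?_))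
  exact mul_le_mul_of_nonneg_left (hm (by omega)) hρ.le

theorem chain {B : ℕ → ℝ} (hB : Bal B) (hm : Monotone B) {n d : ℕ} (v : Fin n → Fin d → ℝ)
    (hv : ∀ i, ∑ k, v i k ^ 2 ≤ 1) (N : ℕ → ℕ) (c : ∀ l, Fin n → Fin (N l)) (s : ℕ → Fin n → ℝ)
    (hs : ∀ l i, IsSgn (s l i))
    (hc : ∀ l i j, c l i = c l j →
      ∑ k, (s l i * v i k - s l j * v j k) ^ 2 ≤ (2 * (1 / 2 : ℝ) ^ l) ^ 2) :
    ∀ (K : ℕ) (I : Finset (Fin n)), I.card ≤ N K → ∃ ε : Fin n → ℝ, (∀ i, IsSgn (ε i)) ∧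
      ∀ k, |∑ i ∈ I, ε i * v i k| ≤
        B (N 0) + ∑ l ∈ range K, 2 * (1 / 2 : ℝ) ^ l * B (N (l + 1)) := by
  intro K
  induction K with
  | zero =>
    intro I hI
    obtain ⟨ε, hε, h⟩ := hB.subset v hv I
    refine ⟨ε, hε, fun k => (h k).trans ?_⟩
    simp only [Finset.range_zero, Finset.sum_empty, add_zero]
    exact hm hI
  | succ K ih =>
    intro I hI
    obtain ⟨ε, hε, h⟩ := step hB hm v (c K) (s K) (hs K) (ρ := 2 * (1 / 2 : ℝ) ^ K) (by positivity)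
      (hc K) I hI _ ih
    refine ⟨ε, hε, fun k => (h k).trans (le_of_eq ?_)⟩
    rw [Finset.sum_range_succ]
    ring

/-- The chaining bound with a small error. -/
theorem chain_all {B : ℕ → ℝ} (hB : Bal B) (hm : Monotone B) {n d : ℕ} (v : Fin n → Fin d → ℝ)
    (hv : ∀ i, ∑ k, v i k ^ 2 ≤ 1) (N : ℕ → ℕ) (c : ∀ l, Fin n → Fin (N l)) (s : ℕ → Fin n → ℝ)
    (hs : ∀ l i, IsSgn (s l i))
    (hc : ∀ l i j, c l i = c l j →
      ∑ k, (s l i * v i k - s l j * v j k) ^ 2 ≤ (2 * (1 / 2 : ℝ) ^ l) ^ 2)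
    (S : ℝ) (hS : ∀ K, B (N 0) + ∑ l ∈ range K, 2 * (1 / 2 : ℝ) ^ l * B (N (l + 1)) ≤ S)
    (η : ℝ) (hη : 0 < η) :
    ∃ ε : Fin n → ℝ, (∀ i, ε i = 1 ∨ ε i = -1) ∧ ∀ k, |∑ i, ε i * v i k| ≤ S + η := by
  obtain ⟨K, hK⟩ : ∃ K : ℕ, 2 * (1 / 2 : ℝ) ^ K * |B n| ≤ η := by
    obtain ⟨K, hK⟩ := exists_pow_lt_of_lt_one (show (0:ℝ) < η / (2 * |B n| + 1) by positivity)
      (show (1 / 2 : ℝ) < 1 by norm_num)
    refine ⟨K, ?_⟩
    have h1 := mul_le_mul_of_nonneg_right hK.le (show (0:ℝ) ≤ 2 * |B n| + 1 by positivity)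
    rw [div_mul_cancel₀ _ (by positivity)] at h1
    have h2 : (0:ℝ) ≤ (1 / 2 : ℝ) ^ K := by positivity
    nlinarith
  obtain ⟨ε, hε, h⟩ := step hB hm v (c K) (s K) (hs K) (ρ := 2 * (1 / 2 : ℝ) ^ K) (by positivity)
      (hc K) Finset.univ (M := n) (by rw [Finset.card_univ, Fintype.card_fin]) _
      (chain hB hm v hv N c s hs hc K)
  refine ⟨ε, hε, fun k => (h k).trans (add_le_add (hS K) (le_trans ?_ hK))⟩
  exact mul_le_mul_of_nonneg_left (le_abs_self _) (by positivity)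

end Pool.Agent.H281K
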