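import Mathlib
import Pool.Agent.H281K.Chain
import Pool.Agent.Results.MP_c81d26_co.KomlosIterFree

/-!
# Entropy conditions for the Komlós problem

Helper file (helper281).
-/

set_option autoImplicit false

namespace Pool.Agent.H281K

open Finset

/-- `v` is covered, up to signs, by `N` balls of radius `ρ`. -/
def Cov {n d : ℕ} (v : Fin n → Fin d → ℝ) (N : ℕ) (ρ : ℝ) : Prop :=
  ∃ z : Fin N → Fin d → ℝ, ∀ i, ∃ a,
    (∑ k, (v i k - z a k) ^ 2 ≤ ρ ^ 2) ∨ (∑ k, (v i k + z a k) ^ 2 ≤ ρ ^ 2)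

/-- there is a signing of value at most `R` -/
def Sig {n d : ℕ} (v : Fin n → Fin d → ℝ) (R : ℝ) : Prop :=
  ∃ ε : Fin n → ℝ, (∀ i, ε i = 1 ∨ ε i = -1) ∧ ∀ k, |∑ i, ε i * v i k| ≤ R

theorem Cov.classes {n d N : ℕ} {v : Fin n → Fin d → ℝ} {ρ : ℝ} (h : Cov v N ρ) :
    ∃ (c : Fin n → Fin N) (s : Fin n → ℝ), (∀ i, IsSgn (s i)) ∧
      ∀ i j, c i = c j → ∑ k, (s i * v i k - s j * v j k) ^ 2 ≤ (2 * ρ) ^ 2 := by
  classical
  obtain ⟨z, hz⟩ := h
  choose c hc using hz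
  have hs : ∀ i, ∃ s : ℝ, IsSgn s ∧ ∑ k, (s * v i k - z (c i) k) ^ 2 ≤ ρ ^ 2 := by
    intro i
    rcases hc i with h | h
    · exact ⟨1, Or.inl rfl, by simpa using h⟩
    · refine ⟨-1, Or.inr rfl, le_trans (le_of_eq ?_) h⟩
      exact Finset.sum_congr rfl fun k _ => by ring
  choose s hs1 hs2 using hs
  refine ⟨c, s, hs1, fun i j hij => ?_⟩
  have h1 := hs2 i
  have h2 := hs2 j
  rw [← hij] at h2
  have h3 : ∀ k, (s i * v i k - s j * v j k) ^ 2 ≤
      2 * (s i * v i k - z (c i) k) ^ 2 + 2 * (s j * v j k - z (c i) k) ^ 2 := by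
    intro k
    nlinarith [sq_nonneg ((s i * v i k - z (c i) k) + (s j * v j k - z (c i) k))]
  have h4 : ∑ k, (s i * v i k - s j * v j k) ^ 2 ≤
      2 * ∑ k, (s i * v i k - z (c i) k) ^ 2 + 2 * ∑ k, (s j * v j k - z (c i) k) ^ 2 := by
    rw [Finset.mul_sum, Finset.mul_sum, ← Finset.sum_add_distrib]
    exact Finset.sum_le_sum fun k _ => h3 k
  nlinarith

theorem general {B : ℕ → ℝ} (hB : Bal B) (hm : Monotone B) {n d : ℕ} (v : Fin n → Fin d → ℝ)
    (hv : ∀ i, ∑ k, v i k ^ 2 ≤ 1) (N : ℕ → ℕ) (hN : ∀ l, Cov v (N l) ((1 / 2 : ℝ) ^ l))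
    (S : ℝ) (hS : ∀ K, B (N 0) + 4 * ∑ l ∈ range K, (1 / 2 : ℝ) ^ (l + 1) * B (N (l + 1)) ≤ S)
    (η : ℝ) (hη : 0 < η) : Sig v (S + η) := by
  choose c s hs hc using fun l => (hN l).classes
  refine chain_all hB hm v hv N c s hs hc S (fun K => le_trans (le_of_eq ?_) (hS K)) η hη
  rw [Finset.mul_sum]
  congr 1
  refine Finset.sum_congr rfl fun l _ => ?_
  rw [pow_succ]
  ring

theorem bal_quarter : ∃ C : ℝ, 0 ≤ C ∧
    Bal (fun n => C * (1 + Real.log (1 + n)) ^ (1 / 4 : ℝ)) := by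
  classical
  obtain ⟨C, hC⟩ := Pool.Agent.Results.MP_c81d26_co.KomlosIterFree.result
  refine ⟨|C|, abs_nonneg C, fun n d v hv => ?_⟩
  let w : Fin n → EuclideanSpace ℝ (Fin d) := fun i => WithLp.toLp 2 (v i)
  have hw : ∀ i k, w i k = v i k := fun i k => rfl
  have hnorm : ∀ i, ‖w i‖ ≤ 1 := by
    intro i
    rw [EuclideanSpace.norm_eq]
    simp only [Real.norm_eq_abs, sq_abs]
    rw [Real.sqrt_le_one]
    exact hv i
  have hcoord : ∀ i k, |w i k| ≤ 1 := by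
    intro i k
    rw [← sq_le_one_iff_abs_le_one]
    exact (Finset.single_le_sum (f := fun k => w i k ^ 2) (fun _ _ => sq_nonneg _)
      (Finset.mem_univ k)).trans (hv i)
  have h := (hC d n (max n 1) w 1 hnorm one_pos le_rfl hcoord (le_max_right _ _) (fun j => by
    refine (Finset.card_filter_le _ _).trans ?_
    rw [Finset.card_univ, Fintype.card_fin]
    exact le_max_left _ _) 0 (fun _ => 0) (by simp)).1
  obtain ⟨x, hx, hx2⟩ := h
  refine ⟨x, hx, fun k => ?_⟩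
  have h1 : ∑ i, x i * v i k = (∑ j, (x j - 0) • w j) k := by
    simp [hw]
  rw [h1]
  refine (hx2 k).trans ?_
  simp only [Nat.cast_zero, zero_mul, zero_add, Function.iterate_one, div_one, Real.log_one,
    add_zero, one_mul]
  have h5 : (0:ℝ) ≤ 1 + Real.log (1 + ((min d n : ℕ) : ℝ)) := by
    have : 0 ≤ Real.log (1 + ((min d n : ℕ) : ℝ)) := Real.log_nonneg (by
      have : (0:ℝ) ≤ ((min d n : ℕ) : ℝ) := by positivity
      linarith)
    linarith
  have h6 := min_le_left ((1 + Real.log (1 + ((min d n : ℕ) : ℝ))) ^ (1 / 4 : ℝ))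
    (1 + Real.sqrt (1 + Real.log (1 + ((min d n : ℕ) : ℝ))) * (1:ℝ) ^ (3 / 2 : ℝ))
  have h7 : 0 ≤ min ((1 + Real.log (1 + ((min d n : ℕ) : ℝ))) ^ (1 / 4 : ℝ))
    (1 + Real.sqrt (1 + Real.log (1 + ((min d n : ℕ) : ℝ))) * (1:ℝ) ^ (3 / 2 : ℝ)) :=
    le_min (by positivity) (by positivity)
  have h8 : (1 + Real.log (1 + ((min d n : ℕ) : ℝ))) ^ (1 / 4 : ℝ) ≤
      (1 + Real.log (1 + (n : ℝ))) ^ (1 / 4 : ℝ) := by
    apply Real.rpow_le_rpow h5 _ (by norm_num)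
    have h9 : ((min d n : ℕ) : ℝ) ≤ n := by exact_mod_cast min_le_right d n
    have h10 : Real.log (1 + ((min d n : ℕ) : ℝ)) ≤ Real.log (1 + (n : ℝ)) :=
      Real.log_le_log (by positivity) (by linarith)
    linarith
  exact (mul_le_mul_of_nonneg_right (le_abs_self C) h7).trans
    (mul_le_mul_of_nonneg_left (h6.trans h8) (abs_nonneg C))

theorem quarter_mono {C : ℝ} (hC : 0 ≤ C) :
    Monotone (fun n : ℕ => C * (1 + Real.log (1 + n)) ^ (1 / 4 : ℝ)) := by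
  intro a b hab
  have h1 : (a : ℝ) ≤ b := by exact_mod_cast hab
  have h0 : (0:ℝ) ≤ Real.log (1 + (a:ℝ)) := Real.log_nonneg (by
    have : (0:ℝ) ≤ a := by positivity
    linarith)
  apply mul_le_mul_of_nonneg_left _ hC
  apply Real.rpow_le_rpow (by linarith) _ (by norm_num)
  have : Real.log (1 + (a:ℝ)) ≤ Real.log (1 + (b:ℝ)) := Real.log_le_log (by positivity) (by linarith)
  linarith

theorem quarter_le {N : ℕ} (hN : 1 ≤ N) :
    (1 + Real.log (1 + (N:ℝ))) ^ (1 / 4 : ℝ) ≤ 2 * (1 + Real.log N) ^ (1 / 4 : ℝ) := by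
  have h1 : (1:ℝ) ≤ N := by exact_mod_cast hN
  have h0 : 0 ≤ Real.log N := Real.log_nonneg h1
  have h2 : Real.log (1 + (N:ℝ)) ≤ 1 + Real.log N := by
    have h3 : Real.log (1 + (N:ℝ)) ≤ Real.log (2 * N) := Real.log_le_log (by positivity) (by linarith)
    rw [Real.log_mul (by norm_num) (by positivity)] at h3
    have h4 := Real.log_two_lt_d9
    linarith
  have h3 : (1 + Real.log (1 + (N:ℝ))) ≤ 2 * (1 + Real.log N) := by linarith
  have h5 : 0 ≤ 1 + Real.log (1 + (N:ℝ)) := by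
    have : 0 ≤ Real.log (1 + (N:ℝ)) := Real.log_nonneg (by linarith)
    linarith
  refine (Real.rpow_le_rpow h5 h3 (by norm_num)).trans ?_
  rw [Real.mul_rpow (by norm_num) (by linarith)]
  apply mul_le_mul_of_nonneg_right _ (by positivity)
  calc (2:ℝ) ^ (1 / 4 : ℝ) ≤ (2:ℝ) ^ (1 : ℝ) :=
        Real.rpow_le_rpow_of_exponent_le (by norm_num) (by norm_num)
    _ = 2 := Real.rpow_one 2

/-- The bound of Dudley type. -/
theorem dudley : ∃ C : ℝ, 0 ≤ C ∧ ∀ (n d : ℕ) (v : Fin n → Fin d → ℝ),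
    (∀ i, ∑ k, v i k ^ 2 ≤ 1) → ∀ N : ℕ → ℕ, (∀ l, Cov v (N l) ((1 / 2 : ℝ) ^ l)) →
    ∀ S : ℝ, (∀ K, ∑ l ∈ range K, (1 / 2 : ℝ) ^ l * (1 + Real.log (N l)) ^ (1 / 4 : ℝ) ≤ S) →
    Sig v (C * S) := by
  obtain ⟨C, hC, hB⟩ := bal_quarter
  refine ⟨8 * C + 1, by positivity, fun n d v hv N hN S hS => ?_⟩
  rcases Nat.eq_zero_or_pos n with hn | hn
  · subst hn
    have hS0 : 0 ≤ S := by simpa using hS 0
    exact ⟨fun _ => 1, fun _ => Or.inl rfl, fun k => by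
      simp only [Finset.univ_eq_empty, Finset.sum_empty, abs_zero]
      positivity⟩
  · have hN1 : ∀ l, 1 ≤ N l := by
      intro l
      obtain ⟨z, hz⟩ := hN l
      obtain ⟨a, _⟩ := hz ⟨0, hn⟩
      exact Nat.one_le_iff_ne_zero.2 (fun h => by
        have := a.2
        omega)
    have hS1 : 1 ≤ S := by
      have h1 := hS 1
      simp only [Finset.range_one, Finset.sum_singleton, pow_zero, one_mul] at h1
      refine le_trans ?_ h1
      apply Real.one_le_rpow _ (by norm_num)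
      have : 0 ≤ Real.log (N 0) := Real.log_nonneg (by exact_mod_cast hN1 0)
      linarith
    have key := general hB (quarter_mono hC) v hv N hN (8 * C * S) (fun K => by
      have h2 : ∀ l, C * (1 + Real.log (1 + ((N l : ℕ) : ℝ))) ^ (1 / 4 : ℝ) ≤
          2 * C * (1 + Real.log (N l)) ^ (1 / 4 : ℝ) := by
        intro l
        have := mul_le_mul_of_nonneg_left (quarter_le (hN1 l)) hC
        linarith
      have h3 : (0:ℝ) ≤ (1 + Real.log (N 0)) ^ (1 / 4 : ℝ) := by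
        have : 0 ≤ Real.log (N 0) := Real.log_nonneg (by exact_mod_cast hN1 0)
        positivity
      have h4 : ∑ l ∈ range K, (1 / 2 : ℝ) ^ (l + 1) *
          (C * (1 + Real.log (1 + ((N (l + 1) : ℕ) : ℝ))) ^ (1 / 4 : ℝ)) ≤
          ∑ l ∈ range K, (1 / 2 : ℝ) ^ (l + 1) *
            (2 * C * (1 + Real.log (N (l + 1))) ^ (1 / 4 : ℝ)) :=
        Finset.sum_le_sum fun l _ => mul_le_mul_of_nonneg_left (h2 _) (by positivity)
      have h5 := hS (K + 1)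
      rw [Finset.sum_range_succ'] at h5
      have h6 : ∑ l ∈ range K, (1 / 2 : ℝ) ^ (l + 1) *
            (2 * C * (1 + Real.log (N (l + 1))) ^ (1 / 4 : ℝ)) = 2 * C *
          ∑ l ∈ range K, (1 / 2 : ℝ) ^ (l + 1) * (1 + Real.log (N (l + 1))) ^ (1 / 4 : ℝ) := by
        rw [Finset.mul_sum]
        exact Finset.sum_congr rfl fun l _ => by ring
      rw [h6] at h4
      simp only [pow_zero, one_mul] at h5
      have h7 := mul_le_mul_of_nonneg_left h5 (show (0:ℝ) ≤ 8 * C by positivity)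
      have h8 := h2 0
      have h9 : 0 ≤ C * (1 + Real.log (N 0)) ^ (1 / 4 : ℝ) := by positivity
      linarith) 1 one_pos
    obtain ⟨ε, hε, h⟩ := key
    refine ⟨ε, hε, fun k => (h k).trans ?_⟩
    nlinarith

/-- Families with entropy of exponent less than four. -/
theorem entropy : ∃ C : ℝ, ∀ (p A : ℝ), 0 ≤ p → p < 4 → 0 ≤ A →
    ∀ (n d : ℕ) (v : Fin n → Fin d → ℝ), (∀ i, ∑ k, v i k ^ 2 ≤ 1) →
    (∀ ρ : ℝ, 0 < ρ → ρ ≤ 1 → ∃ N : ℕ, Cov v N ρ ∧ Real.log N ≤ A * ρ ^ (-p)) →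
    Sig v (C * (1 + A) ^ (1 / 4 : ℝ) / (4 - p)) := by
  obtain ⟨C, hC, hD⟩ := dudley
  refine ⟨8 * C, fun p A hp hp4 hA n d v hv h => ?_⟩
  choose N hN hN2 using fun l : ℕ => h ((1 / 2 : ℝ) ^ l) (by positivity)
    (pow_le_one₀ (by norm_num) (by norm_num))
  set u : ℝ := 1 - p / 4 with hu
  have hu0 : 0 < u := by rw [hu]; linarith
  have hu1 : u ≤ 1 := by rw [hu]; linarith
  set q : ℝ := (1 / 2 : ℝ) ^ u with hq
  have hq0 : 0 < q := by positivity
  have hq1 : q ≤ 1 - u / 2 := by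
    have := rpow_one_add_le_one_add_mul_self (s := -(1 / 2 : ℝ)) (p := u) (by norm_num)
      hu0.le hu1
    have h1 : (1 + -(1 / 2 : ℝ)) = 1 / 2 := by norm_num
    rw [h1] at this
    rw [hq]
    linarith
  have hA1 : (0:ℝ) ≤ (1 + A) ^ (1 / 4 : ℝ) := by positivity
  have hterm : ∀ l : ℕ, (1 / 2 : ℝ) ^ l * (1 + Real.log (N l)) ^ (1 / 4 : ℝ) ≤
      (1 + A) ^ (1 / 4 : ℝ) * q ^ l := by
    intro l
    have h1 : ((1 / 2 : ℝ) ^ l) ^ (-p) = (2 : ℝ) ^ ((l : ℝ) * p) := by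
      rw [← Real.rpow_natCast, ← Real.rpow_mul (by norm_num), one_div, Real.inv_rpow (by norm_num),
        ← Real.rpow_neg (by norm_num)]
      congr 1
      ring
    have h2 := hN2 l
    rw [h1] at h2
    have h3 : (1:ℝ) ≤ (2:ℝ) ^ ((l:ℝ) * p) := Real.one_le_rpow (by norm_num) (by positivity)
    have h4 : 1 + Real.log (N l) ≤ (1 + A) * (2:ℝ) ^ ((l:ℝ) * p) := by nlinarith
    have h0 : 0 ≤ Real.log (N l) := Real.log_natCast_nonneg _
    have h5 : (1 + Real.log (N l)) ^ (1 / 4 : ℝ) ≤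
        (1 + A) ^ (1 / 4 : ℝ) * (2:ℝ) ^ ((l:ℝ) * p / 4) := by
      refine (Real.rpow_le_rpow (by linarith) h4 (by norm_num)).trans (le_of_eq ?_)
      rw [Real.mul_rpow (by positivity) (by positivity), ← Real.rpow_mul (by norm_num)]
      congr 2
      ring
    have h6 : q ^ l = (1 / 2 : ℝ) ^ l * (2:ℝ) ^ ((l:ℝ) * p / 4) := by
      rw [hq, ← Real.rpow_natCast, ← Real.rpow_mul (by norm_num), ← Real.rpow_natCast, one_div,
        Real.inv_rpow (by norm_num), Real.inv_rpow (by norm_num), ← Real.rpow_neg (by norm_num),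
        ← Real.rpow_neg (by norm_num), ← Real.rpow_add (by norm_num)]
      congr 1
      rw [hu]
      ring
    rw [h6]
    calc (1 / 2 : ℝ) ^ l * (1 + Real.log (N l)) ^ (1 / 4 : ℝ) ≤
        (1 / 2 : ℝ) ^ l * ((1 + A) ^ (1 / 4 : ℝ) * (2:ℝ) ^ ((l:ℝ) * p / 4)) :=
          mul_le_mul_of_nonneg_left h5 (by positivity)
      _ = _ := by ring
  have hsum : ∀ K, ∑ l ∈ range K, (1 / 2 : ℝ) ^ l * (1 + Real.log (N l)) ^ (1 / 4 : ℝ) ≤
      8 * (1 + A) ^ (1 / 4 : ℝ) / (4 - p) := by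
    intro K
    refine (Finset.sum_le_sum fun l _ => hterm l).trans ?_
    rw [← Finset.mul_sum]
    have h1 : ∑ l ∈ range K, q ^ l ≤ 8 / (4 - p) := by
      have h2 : q < 1 := by linarith
      rw [geom_sum_eq h2.ne, ← neg_div_neg_eq, neg_sub, neg_sub]
      have h3 : (1 - q ^ K) / (1 - q) ≤ 1 / (1 - q) :=
        div_le_div_of_nonneg_right (by have := pow_pos hq0 K; linarith) (by linarith)
      refine h3.trans ?_
      rw [div_le_div_iff₀ (by linarith) (by linarith)]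
      have : (4 - p) = 4 * u := by rw [hu]; ring
      nlinarith
    calc (1 + A) ^ (1 / 4 : ℝ) * ∑ l ∈ range K, q ^ l ≤ (1 + A) ^ (1 / 4 : ℝ) * (8 / (4 - p)) :=
          mul_le_mul_of_nonneg_left h1 hA1
      _ = _ := by ring
  obtain ⟨ε, hε, h⟩ := hD n d v hv N hN _ hsum
  refine ⟨ε, hε, fun k => (h k).trans (le_of_eq ?_)⟩
  ring

end Pool.Agent.H281K
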