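import Mathlib
import Pool.Agent.H281K.Main

/-!
# Komlós for vectors on Hölder images of cubes

Helper file (helper281).
-/

set_option autoImplicit false

namespace Pool.Agent.H281K

open Finset

theorem sum_weights (K : ℕ) :
    ∑ l ∈ range K, (1 / 2 : ℝ) ^ l * (1 + l) = 4 - 2 * (K + 2) * (1 / 2 : ℝ) ^ K := by
  induction K with
  | zero => norm_num
  | succ K ih =>
    rw [Finset.sum_range_succ, ih, pow_succ]
    push_cast
    ring

/-- a covering indexed by any finite type -/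
theorem Cov.of_fintype {n d : ℕ} {v : Fin n → Fin d → ℝ} {ρ : ℝ} {T : Type} [Fintype T]
    (z : T → Fin d → ℝ) (h : ∀ i, ∃ a, ∑ k, (v i k - z a k) ^ 2 ≤ ρ ^ 2) :
    Cov v (Fintype.card T) ρ := by
  refine ⟨fun a => z ((Fintype.equivFin T).symm a), fun i => ?_⟩
  obtain ⟨a, ha⟩ := h i
  exact ⟨Fintype.equivFin T a, Or.inl (by simpa using ha)⟩

/-- a grid point near `x` -/
theorem grid (M : ℕ) (hM : 1 ≤ M) (x : ℝ) (h0 : 0 ≤ x) (h1 : x ≤ 1) :
    ∃ t : Fin M, |x - (t : ℕ) / M| ≤ 1 / M := by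
  have hMr : (0:ℝ) < M := by exact_mod_cast hM
  have hle : ((min ⌊x * M⌋₊ (M - 1) : ℕ) : ℝ) ≤ x * M := by
    have h2 : ((min ⌊x * M⌋₊ (M - 1) : ℕ) : ℝ) ≤ (⌊x * M⌋₊ : ℝ) := by
      exact_mod_cast min_le_left _ _
    exact h2.trans (Nat.floor_le (by positivity))
  have hge : x * M ≤ ((min ⌊x * M⌋₊ (M - 1) : ℕ) : ℝ) + 1 := by
    rcases le_total ⌊x * M⌋₊ (M - 1) with h | h
    · rw [min_eq_left h]
      exact (Nat.lt_floor_add_one _).le
    · rw [min_eq_right h, Nat.cast_sub hM]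
      push_cast
      nlinarith
  refine ⟨⟨min ⌊x * M⌋₊ (M - 1), by omega⟩, ?_⟩
  simp only
  have h3 : x - ((min ⌊x * M⌋₊ (M - 1) : ℕ) : ℝ) / M =
      (x * M - ((min ⌊x * M⌋₊ (M - 1) : ℕ) : ℝ)) / M := by
    field_simp
  rw [h3, abs_div, abs_of_pos hMr]
  apply div_le_div_of_nonneg_right _ hMr.le
  rw [abs_le]
  constructor <;> linarith

/-- Vectors on the images of `M` cubes of dimension `k` under Hölder maps. -/
theorem holder : ∃ C : ℝ, ∀ (k M : ℕ) (α L : ℝ), 1 ≤ M → 0 < α → α ≤ 1 → 1 ≤ L →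
    ∀ (d : ℕ) (φ : Fin M → (Fin k → ℝ) → Fin d → ℝ),
    (∀ a, ∀ x ∈ Set.Icc (0 : Fin k → ℝ) 1, ∀ y ∈ Set.Icc (0 : Fin k → ℝ) 1,
      ∑ i, (φ a x i - φ a y i) ^ 2 ≤ (L * dist x y ^ α) ^ 2) →
    ∀ (n : ℕ) (a : Fin n → Fin M) (x : Fin n → Fin k → ℝ),
    (∀ j, x j ∈ Set.Icc (0 : Fin k → ℝ) 1) → (∀ j, ∑ i, φ (a j) (x j) i ^ 2 ≤ 1) →
    Sig (fun j => φ (a j) (x j))
      (C * ((1 + k) * (1 + Real.log L) / α + Real.log M) ^ (1 / 4 : ℝ)) := by
  classical
  obtain ⟨C, hC, hD⟩ := dudley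
  refine ⟨4 * C, fun k M α L hM hα hα1 hL d φ hφ n a x hx hball => ?_⟩
  have hL0 : 0 ≤ Real.log L := Real.log_nonneg hL
  have hMr : (1:ℝ) ≤ M := by exact_mod_cast hM
  have hM0 : 0 ≤ Real.log M := Real.log_nonneg hMr
  set Q : ℝ := (1 + k) * (1 + Real.log L) / α + Real.log M with hQ
  have hkr : (0:ℝ) ≤ k := by positivity
  have hQ1 : (1 + k) * (1 + Real.log L) / α ≥ 1 + k := by
    rw [ge_iff_le, le_div_iff₀ hα]
    nlinarith
  let G : ℕ → ℕ := fun l => ⌈(L * 2 ^ l) ^ (1 / α)⌉₊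
  have hbase : ∀ l : ℕ, (1:ℝ) ≤ L * 2 ^ l := fun l => by
    have : (1:ℝ) ≤ 2 ^ l := one_le_pow₀ (by norm_num)
    nlinarith
  have hGe : ∀ l : ℕ, (1:ℝ) ≤ (L * 2 ^ l) ^ (1 / α) := fun l =>
    Real.one_le_rpow (hbase l) (by positivity)
  have hG1 : ∀ l, 1 ≤ G l := fun l => Nat.one_le_iff_ne_zero.2 (by
    have := (Nat.ceil_pos (a := (L * 2 ^ l) ^ (1 / α))).2 (by linarith [hGe l])
    exact this.ne')
  have hcov : ∀ l : ℕ, Cov (fun j => φ (a j) (x j)) (Fintype.card (Fin M × (Fin k → Fin (G l))))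
      ((1 / 2 : ℝ) ^ l) := by
    intro l
    have hGr : (0:ℝ) < G l := by exact_mod_cast hG1 l
    refine Cov.of_fintype (fun b => φ b.1 (fun i => ((b.2 i : ℕ) : ℝ) / G l)) (fun j => ?_)
    have hgr : ∀ i, ∃ t : Fin (G l), |x j i - (t : ℕ) / G l| ≤ 1 / G l := fun i =>
      grid (G l) (hG1 l) (x j i) ((hx j).1 i) ((hx j).2 i)
    choose t ht using hgr
    refine ⟨(a j, t), ?_⟩
    refine (hφ (a j) (x j) (hx j) (fun i => ((t i : ℕ) : ℝ) / G l)
      ⟨fun i => by simp only [Pi.zero_apply]; positivity, fun i => by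
        simp only [Pi.one_apply]
        rw [div_le_one hGr]
        exact_mod_cast (t i).2.le⟩).trans ?_
    have hdist : dist (x j) (fun i => ((t i : ℕ) : ℝ) / G l) ≤ 1 / G l := by
      rw [dist_pi_le_iff (by positivity)]
      intro i
      rw [Real.dist_eq]
      exact ht i
    have h1 : dist (x j) (fun i => ((t i : ℕ) : ℝ) / G l) ^ α ≤ (1 / (G l : ℝ)) ^ α :=
      Real.rpow_le_rpow dist_nonneg hdist hα.le
    have h2 : (1 / (G l : ℝ)) ^ α ≤ (L * 2 ^ l)⁻¹ := by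
      have h3 : (L * 2 ^ l) ^ (1 / α) ≤ (G l : ℝ) := Nat.le_ceil _
      have h4 : ((L * 2 ^ l) ^ (1 / α)) ^ α ≤ (G l : ℝ) ^ α :=
        Real.rpow_le_rpow (by positivity) h3 hα.le
      rw [← Real.rpow_mul (by positivity), one_div, inv_mul_cancel₀ hα.ne', Real.rpow_one] at h4
      rw [one_div, Real.inv_rpow hGr.le]
      exact inv_anti₀ (by have := hbase l; linarith) h4
    have h5 : L * dist (x j) (fun i => ((t i : ℕ) : ℝ) / G l) ^ α ≤ (1 / 2 : ℝ) ^ l := by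
      calc L * dist (x j) (fun i => ((t i : ℕ) : ℝ) / G l) ^ α ≤ L * (L * 2 ^ l)⁻¹ :=
            mul_le_mul_of_nonneg_left (h1.trans h2) (by linarith)
        _ = (1 / 2 : ℝ) ^ l := by
            have : L ≠ 0 := by linarith
            rw [one_div, inv_pow]
            field_simp
    exact pow_le_pow_left₀ (by positivity) h5 2
  have hlog : ∀ l : ℕ, 1 + Real.log ((Fintype.card (Fin M × (Fin k → Fin (G l))) : ℕ) : ℝ) ≤
      (1 + l) * Q := by
    intro l
    have hcard : ((Fintype.card (Fin M × (Fin k → Fin (G l))) : ℕ) : ℝ) = M * (G l : ℝ) ^ k := by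
      simp
    have hGr : (0:ℝ) < G l := by exact_mod_cast hG1 l
    rw [hcard, Real.log_mul (by positivity) (by positivity), Real.log_pow]
    have h1 : (G l : ℝ) ≤ 2 * (L * 2 ^ l) ^ (1 / α) := by
      have := (Nat.ceil_lt_add_one (show (0:ℝ) ≤ (L * 2 ^ l) ^ (1 / α) by positivity)).le
      have h2 := hGe l
      show ((⌈(L * 2 ^ l) ^ (1 / α)⌉₊ : ℕ) : ℝ) ≤ _
      linarith
    have h2 : Real.log (G l) ≤ (1 + Real.log L) * (1 + l) / α := by
      refine (Real.log_le_log hGr h1).trans ?_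
      have hb := hbase l
      rw [Real.log_mul (by norm_num) (by positivity), Real.log_rpow (by linarith),
        Real.log_mul (by linarith) (by positivity), Real.log_pow]
      have h3 := Real.log_two_lt_d9
      have h30 : 0 < Real.log 2 := Real.log_pos (by norm_num)
      have hl : (0:ℝ) ≤ l := by positivity
      rw [le_div_iff₀ hα]
      have h4 : (Real.log 2 + 1 / α * (Real.log L + l * Real.log 2)) * α =
          Real.log 2 * α + (Real.log L + l * Real.log 2) := by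
        field_simp
      rw [h4]
      nlinarith [mul_nonneg hl hL0, mul_nonneg hl h30.le]
    have h5 : (k:ℝ) * Real.log (G l) ≤ k * ((1 + Real.log L) * (1 + l) / α) :=
      mul_le_mul_of_nonneg_left h2 hkr
    have hl : (0:ℝ) ≤ l := by positivity
    have h6 : k * ((1 + Real.log L) * (1 + l) / α) + (1 + l) * ((1 + Real.log L) / α) =
        (1 + l) * ((1 + k) * (1 + Real.log L) / α) := by ring
    have h7 : 1 ≤ (1 + Real.log L) / α := by
      rw [le_div_iff₀ hα]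
      linarith
    rw [hQ]
    nlinarith [mul_nonneg hl hM0]
  obtain ⟨ε, hε, h⟩ := hD n d (fun j => φ (a j) (x j)) hball
    (fun l => Fintype.card (Fin M × (Fin k → Fin (G l)))) hcov (4 * Q ^ (1 / 4 : ℝ)) (fun K => by
      have hQ0 : 0 ≤ Q := by rw [hQ]; linarith
      have h1 : ∀ l ∈ range K, (1 / 2 : ℝ) ^ l *
          (1 + Real.log ((Fintype.card (Fin M × (Fin k → Fin (G l))) : ℕ) : ℝ)) ^ (1 / 4 : ℝ) ≤
          Q ^ (1 / 4 : ℝ) * ((1 / 2 : ℝ) ^ l * (1 + l)) := by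
        intro l _
        have h0 : 0 ≤ Real.log ((Fintype.card (Fin M × (Fin k → Fin (G l))) : ℕ) : ℝ) :=
          Real.log_natCast_nonneg _
        have h2 := Real.rpow_le_rpow (z := (1 / 4 : ℝ)) (by linarith) (hlog l) (by norm_num)
        have hl : (1:ℝ) ≤ 1 + l := by
          have : (0:ℝ) ≤ l := by positivity
          linarith
        rw [Real.mul_rpow (by linarith) hQ0] at h2
        have h3 : (1 + (l:ℝ)) ^ (1 / 4 : ℝ) ≤ (1 + l) ^ (1 : ℝ) :=
          Real.rpow_le_rpow_of_exponent_le hl (by norm_num)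
        rw [Real.rpow_one] at h3
        have h4 : (0:ℝ) ≤ Q ^ (1 / 4 : ℝ) := by positivity
        have h5 : (1 + (l:ℝ)) ^ (1 / 4 : ℝ) * Q ^ (1 / 4 : ℝ) ≤ (1 + l) * Q ^ (1 / 4 : ℝ) :=
          mul_le_mul_of_nonneg_right h3 h4
        calc _ ≤ (1 / 2 : ℝ) ^ l * ((1 + l) * Q ^ (1 / 4 : ℝ)) :=
              mul_le_mul_of_nonneg_left (h2.trans h5) (by positivity)
          _ = _ := by ring
      refine (Finset.sum_le_sum h1).trans ?_
      rw [← Finset.mul_sum, sum_weights]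
      have h4 : (0:ℝ) ≤ Q ^ (1 / 4 : ℝ) := by positivity
      have h5 : (0:ℝ) ≤ 2 * (K + 2) * (1 / 2 : ℝ) ^ K := by positivity
      nlinarith)
  refine ⟨ε, hε, fun i => (h i).trans (le_of_eq ?_)⟩
  ring

end Pool.Agent.H281K
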