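import Mathlib
import Pool.Agent.H281K.Holder
import Pool.Agent.Results.MP_e8ee11_co.BeckFialaBoundT

/-!
# Reduction of the Komlós problem to families separated in the `ℓ₁` norm

Helper file (helper281).
-/

set_option autoImplicit false

namespace Pool.Agent.H281K

open Finset

theorem lift_signing {n d : ℕ} (v : Fin n → Fin d → ℝ) (J : Finset (Fin n)) (R : ℝ)
    (h : Sig (fun a : Fin J.card => v (J.equivFin.symm a)) R) :
    ∃ ε : Fin n → ℝ, (∀ i, IsSgn (ε i)) ∧ ∀ k, |∑ i ∈ J, ε i * v i k| ≤ R := by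
  classical
  obtain ⟨ε, hε, h⟩ := h
  let e := J.equivFin
  refine ⟨fun i => if hi : i ∈ J then ε (e ⟨i, hi⟩) else 1, fun i => ?_, fun k => ?_⟩
  · by_cases hi : i ∈ J
    · simp only [hi, dite_true]; exact hε _
    · simp only [hi, dite_false]; exact Or.inl rfl
  · refine le_trans (le_of_eq ?_) (h k)
    congr 1
    rw [← Finset.sum_coe_sort J, ← Equiv.sum_comp e.symm]
    refine Finset.sum_congr rfl fun a _ => ?_
    have h1 : ((e.symm a : J) : Fin n) ∈ J := (e.symm a).2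
    simp only [h1, dite_true]
    have h2 : (⟨((e.symm a : J) : Fin n), h1⟩ : J) = e.symm a := rfl
    rw [h2, Equiv.apply_symm_apply]

/-- The vectors are separated by more than `K` in the `ℓ₁` norm, up to signs. -/
def Sep {n d : ℕ} (v : Fin n → Fin d → ℝ) (K : ℝ) (i j : Fin n) : Prop :=
  K < ∑ k, |v i k - v j k| ∧ K < ∑ k, |v i k + v j k|

theorem reduce {n d : ℕ} (v : Fin n → Fin d → ℝ) (K R : ℝ) (hK : 0 ≤ K)
    (h : ∀ J : Finset (Fin n), (∀ i ∈ J, ∀ j ∈ J, i ≠ j → Sep v K i j) →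
      Sig (fun a : Fin J.card => v (J.equivFin.symm a)) R) :
    Sig v (K + R) := by
  classical
  let τ : Fin n → Fin n → ℝ := fun i j => if ∑ k, |v i k - v j k| ≤ K then 1 else -1
  have hτ : ∀ i j, IsSgn (τ i j) := by
    intro i j
    simp only [τ]
    split_ifs
    · exact Or.inl rfl
    · exact Or.inr rfl
  obtain ⟨J, m, f, g, _, hJ, _, hfg, H⟩ := pairing_rel
    (fun i j => ¬ Sep v K i j) τ hτ (univ : Finset (Fin n)).card univ le_rfl
  obtain ⟨δ, hδ, hδ2⟩ := Pool.Agent.Results.MP_e8ee11_co.BeckFialaBoundT.result d m K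
    (fun k a => v (f a) k - τ (f a) (g a) * v (g a) k) hK (fun a => by
      have h1 := (hfg a).2.2
      unfold Sep at h1
      simp only [τ]
      split_ifs with h2
      · simpa using h2
      · have h3 : ¬ K < ∑ k, |v (f a) k + v (g a) k| := fun h4 => h1 ⟨not_le.1 h2, h4⟩
        refine le_trans (le_of_eq ?_) (not_lt.1 h3)
        exact Finset.sum_congr rfl fun k _ => by congr 1; ring)
  obtain ⟨η, hη, hη2⟩ := lift_signing v J R (h J fun i hi j hj hij => by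
    by_contra hn
    exact hij (hJ i hi j hj hn))
  obtain ⟨ε, hε, hF⟩ := H η δ hη hδ
  refine ⟨ε, hε, fun k => ?_⟩
  rw [hF (fun i => v i k)]
  have h1 : ∑ a, δ a * (v (f a) k - τ (f a) (g a) * v (g a) k) =
      ∑ a, (v (f a) k - τ (f a) (g a) * v (g a) k) * δ a :=
    Finset.sum_congr rfl fun a _ => mul_comm _ _
  rw [h1]
  refine (abs_add_le _ _).trans ?_
  have h2 := hη2 k
  have h3 := hδ2 k
  linarith

theorem Cov.sub {n d N : ℕ} {v : Fin n → Fin d → ℝ} {ρ : ℝ} (h : Cov v N ρ) {q : ℕ}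
    (f : Fin q → Fin n) : Cov (fun a => v (f a)) N ρ := by
  obtain ⟨z, hz⟩ := h
  exact ⟨z, fun a => hz (f a)⟩

theorem Cov.self {n d : ℕ} (v : Fin n → Fin d → ℝ) (P : ℕ) (hP : n ≤ P) (ρ : ℝ) :
    Cov v P ρ := by
  refine ⟨fun b => if hb : (b : ℕ) < n then v ⟨b, hb⟩ else 0, fun i => ?_⟩
  refine ⟨⟨i, lt_of_lt_of_le i.2 hP⟩, Or.inl ?_⟩
  simp only [i.2, dite_true, Fin.eta, sub_self]
  simpa using sq_nonneg ρ

/-- The bound of Dudley type for families with few `ℓ₁`-separated vectors. -/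
theorem dudley_sep : ∃ C : ℝ, 0 ≤ C ∧ ∀ (n d : ℕ) (v : Fin n → Fin d → ℝ),
    (∀ i, ∑ k, v i k ^ 2 ≤ 1) → ∀ (K : ℝ) (P : ℕ), 0 ≤ K →
    (∀ J : Finset (Fin n), (∀ i ∈ J, ∀ j ∈ J, i ≠ j → Sep v K i j) → J.card ≤ P) →
    ∀ N : ℕ → ℕ, (∀ l, Cov v (N l) ((1 / 2 : ℝ) ^ l)) →
    ∀ S : ℝ, (∀ q, ∑ l ∈ range q,
      (1 / 2 : ℝ) ^ l * (1 + Real.log ((min (N l) P : ℕ))) ^ (1 / 4 : ℝ) ≤ S) →
    Sig v (K + C * S) := by
  classical
  obtain ⟨C, hC, hD⟩ := dudley
  refine ⟨C, hC, fun n d v hv K P hK hP N hN S hS => ?_⟩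
  refine reduce v K (C * S) hK fun J hJ => ?_
  refine hD J.card d _ (fun a => hv _) (fun l => min (N l) P) (fun l => ?_) S hS
  rcases le_total (N l) P with h | h
  · rw [min_eq_left h]
    exact (hN l).sub _
  · rw [min_eq_right h]
    exact Cov.self _ P (hP J hJ) _

end Pool.Agent.H281K
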