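import Mathlib
import Pool.Agent.H281K.Pair
import Pool.Agent.Results.MP_e8ee11_co.BeckFialaIterFree
import Pool.Agent.Results.MP_e8ee11_co.BeckFialaBoundT

/-!
# Beck–Fiala for set systems with few separated elements

Helper file (helper281).
-/

set_option autoImplicit false

namespace Pool.Agent.H281K

open Finset

/-- the bound of the start file `BeckFialaIterFree` -/
noncomputable def iterBound (C : ℝ) (r t s N : ℕ) : ℝ :=
  C * r * (Real.sqrt t + (1 + Real.log t) ^ 2 * Real.sqrt (Real.log s))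
    + C * (Real.sqrt t + (1 + Real.log t) ^ (3 / 2 : ℝ)
        * Real.sqrt ((fun x : ℝ => Real.log (1 + x))^[r + 1] N))

theorem iter_log_nonneg (r : ℕ) (x : ℝ) (hx : 0 ≤ x) :
    0 ≤ (fun x : ℝ => Real.log (1 + x))^[r] x := by
  induction r with
  | zero => simpa using hx
  | succ r ih =>
    rw [Function.iterate_succ_apply']
    exact Real.log_nonneg (by linarith)

theorem iter_log_mono (r : ℕ) {x y : ℝ} (hx : 0 ≤ x) (hxy : x ≤ y) :
    (fun x : ℝ => Real.log (1 + x))^[r] x ≤ (fun x : ℝ => Real.log (1 + x))^[r] y := by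
  induction r with
  | zero => simpa using hxy
  | succ r ih =>
    rw [Function.iterate_succ_apply', Function.iterate_succ_apply']
    have := iter_log_nonneg r x hx
    exact Real.log_le_log (by linarith) (by linarith)

theorem iterBound_mono {C : ℝ} (hC : 0 ≤ C) (r t s : ℕ) {N N' : ℕ} (h : N ≤ N') :
    iterBound C r t s N ≤ iterBound C r t s N' := by
  unfold iterBound
  have h1 : (fun x : ℝ => Real.log (1 + x))^[r + 1] (N : ℝ) ≤
      (fun x : ℝ => Real.log (1 + x))^[r + 1] (N' : ℝ) :=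
    iter_log_mono (r + 1) (by positivity) (by exact_mod_cast h)
  have h0 : 0 ≤ Real.log t := Real.log_natCast_nonneg t
  have h2 := mul_le_mul_of_nonneg_left (Real.sqrt_le_sqrt h1)
    (show (0:ℝ) ≤ (1 + Real.log t) ^ (3 / 2 : ℝ) by positivity)
  have h3 := mul_le_mul_of_nonneg_left (add_le_add_right h2 (Real.sqrt t)) hC
  linarith

/-- there is a colouring of discrepancy at most `R` -/
def Col {m n : ℕ} (S : Fin m → Finset (Fin n)) (R : ℝ) : Prop :=
  ∃ χ : Fin n → ℤ, (∀ j, χ j = 1 ∨ χ j = -1) ∧ ∀ i, |((∑ j ∈ S i, χ j : ℤ) : ℝ)| ≤ R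

/-- more than `ρ` sets contain exactly one of the elements `x` and `y` -/
def SepE {m n : ℕ} (S : Fin m → Finset (Fin n)) (ρ : ℕ) (x y : Fin n) : Prop :=
  ρ < (univ.filter (fun i => ¬ (x ∈ S i ↔ y ∈ S i))).card

/-- the elements of `J` are pairwise separated by more than `ρ` sets -/
def SepSet {m n : ℕ} (S : Fin m → Finset (Fin n)) (ρ : ℕ) (J : Finset (Fin n)) : Prop :=
  ∀ x ∈ J, ∀ y ∈ J, x ≠ y → SepE S ρ x y

/-- the traces of the sets on `J` -/
noncomputable def trc {m n : ℕ} (S : Fin m → Finset (Fin n)) (J : Finset (Fin n)) :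
    Fin m → Finset (Fin J.card) :=
  fun i => univ.filter (fun a => ((J.equivFin.symm a : J) : Fin n) ∈ S i)

theorem trc_deg {m n t : ℕ} (S : Fin m → Finset (Fin n))
    (hdeg : ∀ j, (univ.filter (fun i => j ∈ S i)).card ≤ t) (J : Finset (Fin n)) :
    ∀ a, (univ.filter (fun i => a ∈ trc S J i)).card ≤ t := by
  intro a
  refine le_trans (le_of_eq ?_) (hdeg (J.equivFin.symm a : J))
  congr 1
  ext i
  simp [trc]

theorem trc_sep {m n ρ : ℕ} (S : Fin m → Finset (Fin n)) (J : Finset (Fin n))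
    (h : SepSet S ρ J) : ∀ a b, a ≠ b → SepE (trc S J) ρ a b := by
  intro a b hab
  have h1 := h _ (J.equivFin.symm a).2 _ (J.equivFin.symm b).2
    (fun h2 => hab (J.equivFin.symm.injective (Subtype.ext h2)))
  unfold SepE at h1 ⊢
  refine lt_of_lt_of_le h1 (le_of_eq ?_)
  congr 1
  ext i
  simp [trc]

theorem reduceS {m n : ℕ} (S : Fin m → Finset (Fin n)) (ρ : ℕ) (R : ℝ)
    (h : ∀ J : Finset (Fin n), SepSet S ρ J → Col (trc S J) R) : Col S (ρ + R) := by
  classical
  obtain ⟨J, q, f, g, _, hJ, _, hfg, H⟩ := pairing_rel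
    (fun x y => ¬ SepE S ρ x y) (fun _ _ => 1) (fun _ _ => Or.inl rfl)
    (univ : Finset (Fin n)).card univ le_rfl
  obtain ⟨δ, hδ, hδ2⟩ := Pool.Agent.Results.MP_e8ee11_co.BeckFialaBoundT.result m q (ρ : ℝ)
    (fun i a => (if f a ∈ S i then (1:ℝ) else 0) - (if g a ∈ S i then 1 else 0)) (by positivity)
    (fun a => by
      have h1 : ∀ i : Fin m, |(if f a ∈ S i then (1:ℝ) else 0) - (if g a ∈ S i then 1 else 0)| =
          if ¬ (f a ∈ S i ↔ g a ∈ S i) then (1:ℝ) else 0 := by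
        intro i
        by_cases h1 : f a ∈ S i <;> by_cases h2 : g a ∈ S i <;> simp [h1, h2]
      simp_rw [h1]
      have h2 := not_lt.1 (hfg a).2.2
      rw [← Finset.sum_filter, Finset.sum_const, nsmul_eq_mul, mul_one]
      exact_mod_cast h2)
  obtain ⟨χ', hχ', hχ2⟩ := h J (fun x hx y hy hxy => by
    by_contra hn
    exact hxy (hJ x hx y hy hn))
  let e := J.equivFin
  let η : Fin n → ℝ := fun i => if hi : i ∈ J then (χ' (e ⟨i, hi⟩) : ℝ) else 1
  have hη : ∀ i, IsSgn (η i) := by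
    intro i
    by_cases hi : i ∈ J
    · simp only [η, hi, dite_true]
      rcases hχ' (e ⟨i, hi⟩) with h | h
      · exact Or.inl (by rw [h]; norm_num)
      · exact Or.inr (by rw [h]; norm_num)
    · simp only [η, hi, dite_false]
      exact Or.inl rfl
  obtain ⟨ε, hε, hF⟩ := H η δ hη hδ
  refine ⟨fun i => if ε i = 1 then 1 else -1, fun i => by by_cases h : ε i = 1 <;> simp [h],
    fun i => ?_⟩
  have hcast : ∀ j, (((if ε j = 1 then 1 else -1 : ℤ)) : ℝ) = ε j := by
    intro j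
    rcases hε j with h | h
    · simp [h]
    · have h1 : ε j ≠ 1 := by rw [h]; norm_num
      rw [if_neg h1, h]
      norm_num
  have h1 : ((∑ j ∈ S i, (if ε j = 1 then 1 else -1 : ℤ) : ℤ) : ℝ) =
      ∑ j, ε j * (if j ∈ S i then (1:ℝ) else 0) := by
    push_cast
    simp_rw [mul_ite, mul_one, mul_zero]
    rw [← Finset.sum_filter, Finset.filter_mem_eq_inter, Finset.univ_inter]
    refine Finset.sum_congr rfl fun j _ => ?_
    have := hcast j
    push_cast at this
    exact this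
  rw [h1, hF]
  have h2 : ∑ j ∈ J, η j * (if j ∈ S i then (1:ℝ) else 0) =
      ((∑ a ∈ trc S J i, χ' a : ℤ) : ℝ) := by
    rw [← Finset.sum_coe_sort J, ← Equiv.sum_comp e.symm]
    simp only [trc]
    push_cast
    rw [Finset.sum_filter]
    refine Finset.sum_congr rfl fun a _ => ?_
    have h3 : ((e.symm a : J) : Fin n) ∈ J := (e.symm a).2
    have h4 : (⟨((e.symm a : J) : Fin n), h3⟩ : J) = e.symm a := rfl
    simp only [η, h3, dite_true]
    rw [h4, Equiv.apply_symm_apply]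
    simp [e]
  rw [h2]
  have h3 := hχ2 i
  have h4 := hδ2 i
  have h5 : ∑ a, δ a * ((if f a ∈ S i then (1:ℝ) else 0) -
      1 * (if g a ∈ S i then (1:ℝ) else 0)) =
      ∑ a, ((if f a ∈ S i then (1:ℝ) else 0) - if g a ∈ S i then 1 else 0) * δ a :=
    Finset.sum_congr rfl fun a _ => by rw [one_mul, mul_comm]
  rw [h5]
  refine (abs_add_le _ _).trans ?_
  linarith

theorem types : ∃ C : ℝ, 0 ≤ C ∧ ∀ m n t s N ρ : ℕ, 1 ≤ t → 1 ≤ s →
    ∀ S : Fin m → Finset (Fin n), (∀ j, (univ.filter (fun i => j ∈ S i)).card ≤ t) →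
    (∀ J, SepSet S ρ J → J.card ≤ N) → (∀ i, ∀ J ⊆ S i, SepSet S ρ J → J.card ≤ s) →
    ∀ r : ℕ, Col S (ρ + iterBound C r t s (min m N)) := by
  classical
  obtain ⟨C, hC⟩ := Pool.Agent.Results.MP_e8ee11_co.BeckFialaIterFree.result
  refine ⟨|C|, abs_nonneg C, fun m n t s N ρ ht hs S hdeg hN hsz r => ?_⟩
  refine reduceS S ρ _ fun J hJ => ?_
  have hsize' : ∀ i, (trc S J i).card ≤ s := by
    intro i
    have h1 : ((trc S J i).map
        ⟨fun a => ((J.equivFin.symm a : J) : Fin n), fun a b hab =>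
          J.equivFin.symm.injective (Subtype.ext hab)⟩).card ≤ s := by
      refine hsz i _ ?_ ?_
      · intro x hx
        rw [Finset.mem_map] at hx
        obtain ⟨a, ha, rfl⟩ := hx
        exact (Finset.mem_filter.1 ha).2
      · intro x hx y hy hxy
        rw [Finset.mem_map] at hx hy
        obtain ⟨a, _, rfl⟩ := hx
        obtain ⟨b, _, rfl⟩ := hy
        exact hJ _ (J.equivFin.symm a).2 _ (J.equivFin.symm b).2 hxy
    rwa [Finset.card_map] at h1
  obtain ⟨χ', hχ', hχ2⟩ := (hC m J.card t s ht hs (trc S J) (trc_deg S hdeg J) hsize' r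
    (fun _ => 0) (by simp)).1
  refine ⟨χ', hχ', fun i => ?_⟩
  have h3 := hχ2 i
  have h6 : iterBound C r t s (min m J.card) ≤ iterBound |C| r t s (min m N) := by
    refine le_trans ?_ (iterBound_mono (abs_nonneg C) r t s (min_le_min_left m (hN J hJ)))
    unfold iterBound
    have hlt : 0 ≤ Real.log t := Real.log_natCast_nonneg t
    have g1 : 0 ≤ (r:ℝ) * (Real.sqrt t + (1 + Real.log t) ^ 2 * Real.sqrt (Real.log s)) := by
      positivity
    have g2 : 0 ≤ Real.sqrt t + (1 + Real.log t) ^ (3 / 2 : ℝ)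
        * Real.sqrt ((fun x : ℝ => Real.log (1 + x))^[r + 1] ((min m J.card : ℕ) : ℝ)) := by
      positivity
    have g3 := mul_le_mul_of_nonneg_right (le_abs_self C) g1
    have g4 := mul_le_mul_of_nonneg_right (le_abs_self C) g2
    nlinarith
  have h7 : ((∑ a ∈ trc S J i, χ' a : ℤ) : ℝ) = ∑ a ∈ trc S J i, ((χ' a : ℝ) - 0) := by
    push_cast
    exact Finset.sum_congr rfl fun a _ => by ring
  rw [h7]
  refine h3.trans (le_trans (le_of_eq ?_) h6)
  rfl

theorem rpow_three_half {x : ℝ} (hx : 1 ≤ x) : x ^ (3 / 2 : ℝ) = Real.sqrt (x ^ 3) := by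
  rw [Real.sqrt_eq_rpow, ← Real.rpow_natCast, ← Real.rpow_mul (by linarith)]
  norm_num

/-- The Beck–Fiala bound `O(√t)`. -/
theorem root_bound (r : ℕ) : ∃ C : ℝ, ∀ m n t s N ρ : ℕ, 1 ≤ t → 1 ≤ s →
    ∀ S : Fin m → Finset (Fin n), (∀ j, (univ.filter (fun i => j ∈ S i)).card ≤ t) →
    (∀ J, SepSet S ρ J → J.card ≤ N) → (∀ i, ∀ J ⊆ S i, SepSet S ρ J → J.card ≤ s) →
    (ρ : ℝ) ≤ Real.sqrt t → (r = 0 ∨ Real.log s ≤ t / (1 + Real.log t) ^ 4) →
    (fun x : ℝ => Real.log (1 + x))^[r + 1] N ≤ t / (1 + Real.log t) ^ 3 →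
    Col S (C * Real.sqrt t) := by
  obtain ⟨C, hC, hT⟩ := types
  refine ⟨1 + 2 * C * r + 2 * C, fun m n t s N ρ ht hs S hdeg hN hsz hρ hs2 hN2 => ?_⟩
  obtain ⟨χ, hχ, h⟩ := hT m n t s N ρ ht hs S hdeg hN hsz r
  refine ⟨χ, hχ, fun i => (h i).trans ?_⟩
  have hlt : 0 ≤ Real.log t := Real.log_natCast_nonneg t
  have ht0 : (0:ℝ) ≤ t := by positivity
  set u : ℝ := 1 + Real.log t with hu
  have hu1 : 1 ≤ u := by linarith
  have hmono : iterBound C r t s (min m N) ≤ iterBound C r t s N :=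
    iterBound_mono hC r t s (min_le_right m N)
  have h1 : u ^ (3 / 2 : ℝ) * Real.sqrt ((fun x : ℝ => Real.log (1 + x))^[r + 1] N) ≤
      Real.sqrt t := by
    rw [rpow_three_half hu1, ← Real.sqrt_mul (by positivity)]
    apply Real.sqrt_le_sqrt
    have := mul_le_mul_of_nonneg_left hN2 (show (0:ℝ) ≤ u ^ 3 by positivity)
    rwa [mul_div_cancel₀ _ (by positivity)] at this
  have h2 : C * r * (Real.sqrt t + u ^ 2 * Real.sqrt (Real.log s)) ≤
      C * r * (2 * Real.sqrt t) := by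
    rcases hs2 with hr | hs2
    · subst hr
      simp
    · apply mul_le_mul_of_nonneg_left _ (by positivity)
      have h3 : u ^ 2 * Real.sqrt (Real.log s) ≤ Real.sqrt t := by
        have h4 : u ^ 2 = Real.sqrt (u ^ 4) := by
          rw [show u ^ 4 = (u ^ 2) ^ 2 by ring, Real.sqrt_sq (by positivity)]
        rw [h4, ← Real.sqrt_mul (by positivity)]
        apply Real.sqrt_le_sqrt
        have := mul_le_mul_of_nonneg_left hs2 (show (0:ℝ) ≤ u ^ 4 by positivity)
        rwa [mul_div_cancel₀ _ (by positivity)] at this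
      linarith
  have h5 : iterBound C r t s N ≤ C * r * (2 * Real.sqrt t) + C * (2 * Real.sqrt t) := by
    unfold iterBound
    have h6 := mul_le_mul_of_nonneg_left h1 hC
    rw [← hu]
    nlinarith
  have h7 : (0:ℝ) ≤ Real.sqrt t := Real.sqrt_nonneg _
  nlinarith

end Pool.Agent.H281K
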